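import Mathlib

/-!
# LD/E-Cs: the contradiction from the Cauchy-Schwarz inequality

PLAN.  Let `L = log (1/δ)`.  From `h3`, `h4`: `5 L - 5 C ≤ ∑' v, lam v * r δ v * (1 - ∑ i, χ i v)` (all series converge absolutely:
`|lam v r δ v| ≤ 2 N^(1/2) N^(-(3/2 + δ)) = 2 N^(-(1+δ))`, `|χ| ≤ 1`).  With the weights `p_v = N_v^(-(1+δ))`: the right hand side is at most
`∑' v, 2 |1 - ∑ χ i v| p_v ≤ 2 (∑ p_v)^(1/2) (∑ (1 - ∑ χ i v)² p_v)^(1/2)` (`Real.inner_le_Lp_mul_Lq_tsum_of_nonneg` with `p = q = 2`, or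
`2 |a| ≤ t + a²/t` for a constant `t > 0`: `2 |1 - ∑ χ| ≤ t + (1 - ∑ χ)²/t`, with `t = √5`: this avoids Cauchy-Schwarz).
`(1 - ∑ χ i)² = 1 - 2 ∑ χ i + ∑ χ i² + 2 ∑_{i<j} χ i χ j ≤ 5 - 2 ∑ χ i + 2 ∑_{i<j} χ i χ j`, so
`∑ (1 - ∑ χ i v)² p_v ≤ 5 (L + C) + 8 C + 12 C`, `∑ p_v ≤ L + C`.  Total: `5 L - 5 C ≤ √5 (L + C) + (5 (L + C) + 20 C)/√5 = 2 √5 L + C'`, and
`2 √5 < 5`: false for `δ` small.
-/

namespace Pool.Agent.LD

private theorem cs_alg (a b c d : ℝ) (ha : |a| ≤ 1) (hb : |b| ≤ 1) (hc : |c| ≤ 1) (hd : |d| ≤ 1) :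
    2 * |1 - (a + b + c + d)| ≤ 9 / 2 - (a + b + c + d) +
      (a * b + a * c + a * d + b * c + b * d + c * d) := by
  have h1 : ∀ x : ℝ, |x| ≤ 1 → x ^ 2 ≤ 1 := by
    intro x hx
    rw [← sq_abs]
    nlinarith [abs_nonneg x]
  have ha2 := h1 a ha
  have hb2 := h1 b hb
  have hc2 := h1 c hc
  have hd2 := h1 d hd
  have h2 : 2 * |1 - (a + b + c + d)| ≤ 2 + |1 - (a + b + c + d)| ^ 2 / 2 := by
    nlinarith [sq_nonneg (|1 - (a + b + c + d)| - 2)]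
  rw [sq_abs] at h2
  nlinarith

theorem cs_contra {ι : Type} (N lam : ι → ℝ) (hN : ∀ v, 1 ≤ N v)
    (hlam : ∀ v, |lam v| ≤ 2 * Real.sqrt (N v))
    (hsum : ∀ x : ℝ, 1 < x → Summable fun v => N v ^ (-x)) (χ : Fin 4 → ι → ℝ)
    (hχ : ∀ i v, |χ i v| ≤ 1) (r : ℝ → ι → ℝ) (hr : ∀ δ v, |r δ v| ≤ N v ^ (-(3 / 2 + δ)))
    {C δ0 : ℝ} (hδ0 : 0 < δ0)
    (h0 : ∀ δ : ℝ, 0 < δ → δ ≤ δ0 → ∑' v, N v ^ (-(1 + δ)) ≤ Real.log (1 / δ) + C)
    (h1 : ∀ (i : Fin 4) (δ : ℝ), 0 < δ → δ ≤ δ0 → |∑' v, χ i v * N v ^ (-(1 + δ))| ≤ C)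
    (h2 : ∀ (i j : Fin 4) (δ : ℝ), i ≠ j → 0 < δ → δ ≤ δ0 →
      |∑' v, (χ i v * χ j v) * N v ^ (-(1 + δ))| ≤ C)
    (h3 : ∀ δ : ℝ, 0 < δ → δ ≤ δ0 → Real.log (1 / δ) - C ≤ ∑' v, lam v * r δ v)
    (h4 : ∀ (i : Fin 4) (δ : ℝ), 0 < δ → δ ≤ δ0 →
      ∑' v, lam v * (χ i v * r δ v) ≤ -Real.log (1 / δ) + C) : False := by
  have key : ∀ δ : ℝ, 0 < δ → δ ≤ δ0 → Real.log (1 / δ) ≤ 39 * C := by
    intro δ hδ hδ'
    have hN0 : ∀ v, 0 < N v := fun v => lt_of_lt_of_le one_pos (hN v)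
    obtain ⟨p, hp⟩ : ∃ p : ι → ℝ, p = fun v => N v ^ (-(1 + δ)) := ⟨_, rfl⟩
    have hpv : ∀ v, N v ^ (-(1 + δ)) = p v := fun v => by rw [hp]
    have hp0 : ∀ v, 0 ≤ p v := fun v => by rw [← hpv]; exact Real.rpow_nonneg (hN0 v).le _
    have hps : Summable p := by
      rw [hp]
      exact hsum (1 + δ) (by linarith)
    have hbd : ∀ v, |lam v| * |r δ v| ≤ 2 * p v := by
      intro v
      have e1 : 2 * Real.sqrt (N v) * N v ^ (-(3 / 2 + δ)) = 2 * p v := by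
        rw [← hpv, Real.sqrt_eq_rpow, mul_assoc, ← Real.rpow_add (hN0 v)]
        congr 2
        ring
      rw [← e1]
      exact mul_le_mul (hlam v) (hr δ v) (abs_nonneg _) (by positivity)
    have hs0 : Summable fun v => lam v * r δ v := by
      refine Summable.of_norm_bounded (hps.mul_left 2) fun v => ?_
      rw [Real.norm_eq_abs, abs_mul]
      exact hbd v
    have hsi : ∀ i, Summable fun v => lam v * (χ i v * r δ v) := by
      intro i
      refine Summable.of_norm_bounded (hps.mul_left 2) fun v => ?_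
      rw [Real.norm_eq_abs, abs_mul, abs_mul]
      refine le_trans ?_ (hbd v)
      have e1 : |χ i v| * |r δ v| ≤ 1 * |r δ v| :=
        mul_le_mul_of_nonneg_right (hχ i v) (abs_nonneg _)
      rw [one_mul] at e1
      exact mul_le_mul_of_nonneg_left e1 (abs_nonneg _)
    have hti : ∀ i, Summable fun v => χ i v * p v := by
      intro i
      refine Summable.of_norm_bounded hps fun v => ?_
      rw [Real.norm_eq_abs, abs_mul, abs_of_nonneg (hp0 v)]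
      have e1 := mul_le_mul_of_nonneg_right (hχ i v) (hp0 v)
      rwa [one_mul] at e1
    have htij : ∀ i j, Summable fun v => (χ i v * χ j v) * p v := by
      intro i j
      refine Summable.of_norm_bounded hps fun v => ?_
      rw [Real.norm_eq_abs, abs_mul, abs_mul, abs_of_nonneg (hp0 v)]
      have e1 : |χ i v| * |χ j v| ≤ 1 := mul_le_one₀ (hχ i v) (abs_nonneg _) (hχ j v)
      have e2 := mul_le_mul_of_nonneg_right e1 (hp0 v)
      rwa [one_mul] at e2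
    have g0 := h0 δ hδ hδ'
    have g1 := fun i => h1 i δ hδ hδ'
    have g2 := fun i j hij => h2 i j δ hij hδ hδ'
    have g3 := h3 δ hδ hδ'
    have g4 := fun i => h4 i δ hδ hδ'
    simp only [hpv] at g0 g1 g2
    have HL := hs0.hasSum.sub ((((hsi 0).hasSum.add (hsi 1).hasSum).add (hsi 2).hasSum).add
      (hsi 3).hasSum)
    have HR := ((hps.hasSum.mul_left (9 / 2 : ℝ)).sub ((((hti 0).hasSum.add (hti 1).hasSum).add
      (hti 2).hasSum).add (hti 3).hasSum)).add ((((((htij 0 1).hasSum.add (htij 0 2).hasSum).add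
      (htij 0 3).hasSum).add (htij 1 2).hasSum).add (htij 1 3).hasSum).add (htij 2 3).hasSum)
    have hle := hasSum_le (fun v => ?_) HL HR
    · have a1 := fun i => abs_le.1 (g1 i)
      have a2 := fun i j hij => abs_le.1 (g2 i j hij)
      have b01 := a2 0 1 (by decide)
      have b02 := a2 0 2 (by decide)
      have b03 := a2 0 3 (by decide)
      have b12 := a2 1 2 (by decide)
      have b13 := a2 1 3 (by decide)
      have b23 := a2 2 3 (by decide)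
      linarith [(a1 0).1, (a1 1).1, (a1 2).1, (a1 3).1, g4 0, g4 1, g4 2, g4 3, b01.2, b02.2,
        b03.2, b12.2, b13.2, b23.2]
    · have e1 := cs_alg (χ 0 v) (χ 1 v) (χ 2 v) (χ 3 v) (hχ 0 v) (hχ 1 v) (hχ 2 v) (hχ 3 v)
      have e2 : lam v * r δ v * (1 - (χ 0 v + χ 1 v + χ 2 v + χ 3 v)) ≤
          (2 * p v) * |1 - (χ 0 v + χ 1 v + χ 2 v + χ 3 v)| := by
        refine (le_abs_self _).trans ?_
        rw [abs_mul, abs_mul]
        exact mul_le_mul_of_nonneg_right (hbd v) (abs_nonneg _)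
      have e3 := mul_le_mul_of_nonneg_left e1 (hp0 v)
      nlinarith
  obtain ⟨δ, hδ⟩ : ∃ δ, δ = min δ0 (Real.exp (-(39 * C + 1))) := ⟨_, rfl⟩
  have hδp : 0 < δ := by
    rw [hδ]
    exact lt_min hδ0 (Real.exp_pos _)
  have h5 := key δ hδp (by rw [hδ]; exact min_le_left _ _)
  have h6 : Real.log δ ≤ -(39 * C + 1) := by
    rw [← Real.log_exp (-(39 * C + 1))]
    exact Real.log_le_log hδp (by rw [hδ]; exact min_le_right _ _)
  rw [one_div, Real.log_inv] at h5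
  linarith

end Pool.Agent.LD
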