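import Pool.Agent.QD.In.ZSx
import Pool.Agent.QD.N1Main

/-!
# LD/E-Zeta: sums of quadratic characters over the places near `w = 1`

PLAN.  `zeta_fe` (QD/N1Main): for every number field `F` an entire function `Z_F` with `Z_F 1 ≠ 0`, `Z_F w = (w - 1) ZP F w` for `Re w > 1`, and
`ZP F w = ∏' v, (1 - nrm v ^ (-w))⁻¹` (QD/ZDefs), `> 0` for real `w > 1`.
`psum_le`: for `0 < δ ≤ 1`: `∑_v nrm v ^(-(1+δ)) ≤ log (ZP K (1 + δ))` (`x ≤ - log (1 - x)`; logarithm of the product: as in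
`tprod`/`exp` lemmas) `= log (|Z_K (1 + δ)| / δ) ≤ log (1/δ) + C` (`Z_K` bounded on `[1, 2]`); a sum over a subset is smaller.
`csum_bd`: `K' = (qf h).L`: `ZP K' w = ∏' v, zf (nrm v) (tt x v) w` (`ZP_quad`, N4Main; `tt` for a nonsquare is `ty`), `zf q t w = (1 - q^(-w))⁻¹ (1 - t q^(-w))⁻¹`; so
`∏' v, (1 - t_v q_v^(-w))⁻¹ = ZP K' w / ZP K w = Z_{K'} w / Z_K w` for `w = 1 + δ` (`Multipliable.tprod_mul`), real and positive, and
bounded above and below on `(0, 1]` (continuous and non vanishing on `[1, 2]`: for `w > 1` the products do not vanish, at `1` by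
`zeta_fe`).  `|- log (1 - t y) - t y| ≤ y²` for `0 ≤ y ≤ 1/2`, `|t| ≤ 1`, and `∑ nrm v ^(-2(1+δ)) ≤ ∑ nrm v ^(-2)`
(`summable_nrm`): so `|∑_v t_v q_v^(-(1+δ))| ≤ C`.  Finally drop the finitely many places in `S` (each term is at most `1` in absolute
value), and `tt x v = uK v x` outside `2` (`tt_uK`, QD/In/CongZ).
`cmul_bd`: `uK v x * uK v y = uK v (x * y)` unless the orders of both `x` and `y` at `v` are odd (`uK_mul`, N2/UKA, `uK_eq_zero_iff`), which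
happens for finitely many `v` (`ordK_finite`); `csum_bd` for `x * y`.
-/

namespace Pool.Agent.LD

open NumberField IsDedekindDomain Pool.Agent.HWR Pool.Agent.QD Pool.Agent.QD.In

variable {K : Type} [Field K] [NumberField K] (S : Finset (HeightOneSpectrum (𝓞 K)))

/-! ### the elementary part -/

private theorem two_le (v : HeightOneSpectrum (𝓞 K)) : (2 : ℝ) ≤ nrm v := by
  have h0 := nrm_ne_zero v
  have h1 := nrm_ne_one v
  have : 2 ≤ nrm v := by omega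
  exact_mod_cast this

private theorem y_pos (σ : ℝ) (v : HeightOneSpectrum (𝓞 K)) : 0 < (nrm v : ℝ) ^ (-σ) :=
  Real.rpow_pos_of_pos (by linarith [two_le v]) _

private theorem y_half {σ : ℝ} (hσ : 1 < σ) (v : HeightOneSpectrum (𝓞 K)) :
    (nrm v : ℝ) ^ (-σ) ≤ 1 / 2 := by
  have h2 := two_le v
  calc (nrm v : ℝ) ^ (-σ) ≤ (nrm v : ℝ) ^ (-1 : ℝ) :=
        Real.rpow_le_rpow_of_exponent_le (by linarith) (by linarith)
    _ = (nrm v : ℝ)⁻¹ := Real.rpow_neg_one _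
    _ ≤ 1 / 2 := by
        rw [one_div]
        exact inv_anti₀ (by norm_num) h2

private theorem y_sq {σ : ℝ} (hσ : 1 < σ) (v : HeightOneSpectrum (𝓞 K)) :
    ((nrm v : ℝ) ^ (-σ)) ^ 2 ≤ (nrm v : ℝ) ^ (-(2 : ℝ)) := by
  have h2 := two_le v
  rw [← Real.rpow_natCast, ← Real.rpow_mul (by linarith)]
  refine Real.rpow_le_rpow_of_exponent_le (by linarith) ?_
  push_cast
  linarith

private theorem t_abs {t : ℤ} (ht : t = 1 ∨ t = -1 ∨ t = 0) : |(t : ℝ)| ≤ 1 := by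
  rcases ht with h | h | h <;> rw [h] <;> norm_num

private theorem ty_abs {t : ℤ} (ht : t = 1 ∨ t = -1 ∨ t = 0) {y : ℝ} (hy0 : 0 < y) :
    |(t : ℝ) * y| ≤ y := by
  rw [abs_mul, abs_of_pos hy0]
  exact mul_le_of_le_one_left hy0.le (t_abs ht)

private theorem log_bd {z : ℝ} (hz : |z| ≤ 1 / 2) : |-Real.log (1 - z) - z| ≤ 2 * z ^ 2 := by
  have h1 := Real.abs_log_sub_add_sum_range_le (x := z) (by linarith) 1
  rw [Finset.sum_range_one] at h1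
  have h2 : z ^ (0 + 1) / (((0 : ℕ) : ℝ) + 1) + Real.log (1 - z) = -(-Real.log (1 - z) - z) := by
    push_cast
    ring
  rw [h2, abs_neg] at h1
  refine h1.trans ?_
  rw [div_le_iff₀ (by linarith)]
  have h3 : |z| ^ (1 + 1) = z ^ 2 := by rw [sq_abs]
  rw [h3]
  nlinarith [sq_nonneg z]

section T

variable (t : HeightOneSpectrum (𝓞 K) → ℤ) (ht : ∀ v, t v = 1 ∨ t v = -1 ∨ t v = 0)

private noncomputable def gg (σ : ℝ) (v : HeightOneSpectrum (𝓞 K)) : ℝ :=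
  -Real.log (1 - (t v : ℝ) * (nrm v : ℝ) ^ (-σ))

private noncomputable def BB (K : Type) [Field K] [NumberField K] : ℝ :=
  ∑' v : HeightOneSpectrum (𝓞 K), 2 * (nrm v : ℝ) ^ (-(2 : ℝ))

private theorem BB_sum : Summable fun v : HeightOneSpectrum (𝓞 K) =>
    2 * (nrm v : ℝ) ^ (-(2 : ℝ)) :=
  (summable_nrm K (x := 2) (by norm_num)).mul_left 2

include ht

private theorem ty_sum {σ : ℝ} (hσ : 1 < σ) :
    Summable fun v => (t v : ℝ) * (nrm v : ℝ) ^ (-σ) := by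
  refine Summable.of_norm_bounded (summable_nrm K hσ) fun v => ?_
  rw [Real.norm_eq_abs]
  exact ty_abs (ht v) (y_pos σ v)

private theorem gg_bd {σ : ℝ} (hσ : 1 < σ) (v : HeightOneSpectrum (𝓞 K)) :
    |gg t σ v - (t v : ℝ) * (nrm v : ℝ) ^ (-σ)| ≤ 2 * (nrm v : ℝ) ^ (-(2 : ℝ)) := by
  have h1 := ty_abs (ht v) (y_pos σ v)
  refine (log_bd (h1.trans (y_half hσ v))).trans ?_
  have h2 : ((t v : ℝ) * (nrm v : ℝ) ^ (-σ)) ^ 2 ≤ ((nrm v : ℝ) ^ (-σ)) ^ 2 := by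
    rw [← sq_abs ((t v : ℝ) * (nrm v : ℝ) ^ (-σ))]
    exact pow_le_pow_left₀ (abs_nonneg _) h1 2
  linarith [y_sq hσ v]

private theorem dd_sum {σ : ℝ} (hσ : 1 < σ) :
    Summable fun v => gg t σ v - (t v : ℝ) * (nrm v : ℝ) ^ (-σ) :=
  Summable.of_norm_bounded BB_sum fun v => by
    rw [Real.norm_eq_abs]
    exact gg_bd t ht hσ v

private theorem gg_sum {σ : ℝ} (hσ : 1 < σ) : Summable (gg t σ) := by
  refine ((dd_sum t ht hσ).add (ty_sum t ht hσ)).congr fun v => ?_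
  rw [sub_add_cancel]

private theorem gg_tsum {σ : ℝ} (hσ : 1 < σ) :
    |(∑' v, gg t σ v) - ∑' v, (t v : ℝ) * (nrm v : ℝ) ^ (-σ)| ≤ BB K := by
  rw [← (gg_sum t ht hσ).tsum_sub (ty_sum t ht hσ)]
  have h1 : Summable fun v => |gg t σ v - (t v : ℝ) * (nrm v : ℝ) ^ (-σ)| :=
    Summable.of_nonneg_of_le (fun _ => abs_nonneg _) (gg_bd t ht hσ) BB_sum
  have h2 : |∑' v, (gg t σ v - (t v : ℝ) * (nrm v : ℝ) ^ (-σ))| ≤
      ∑' v, |gg t σ v - (t v : ℝ) * (nrm v : ℝ) ^ (-σ)| := by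
    have h3 := norm_tsum_le_tsum_norm (f := fun v => gg t σ v - (t v : ℝ) * (nrm v : ℝ) ^ (-σ))
      (by simpa only [Real.norm_eq_abs] using h1)
    simpa only [Real.norm_eq_abs] using h3
  exact h2.trans (h1.tsum_le_tsum (gg_bd t ht hσ) BB_sum)

private theorem gg_prod {σ : ℝ} (hσ : 1 < σ) :
    HasProd (fun v : HeightOneSpectrum (𝓞 K) =>
      (1 - (t v : ℂ) * (nrm v : ℂ) ^ (-(σ : ℂ)))⁻¹)
      ((Real.exp (∑' v, gg t σ v) : ℝ) : ℂ) := by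
  have h1 := (Complex.hasSum_ofReal.2 (gg_sum t ht hσ).hasSum).cexp
  rw [← Complex.ofReal_exp] at h1
  refine h1.congr_fun ?_
  intro v
  show _ = Complex.exp ((gg t σ v : ℝ) : ℂ)
  have h2 : (nrm v : ℂ) ^ (-(σ : ℂ)) = (((nrm v : ℝ) ^ (-σ) : ℝ) : ℂ) := by
    rw [Complex.ofReal_cpow (Nat.cast_nonneg _)]
    push_cast
    rfl
  have h3 : 0 < 1 - (t v : ℝ) * (nrm v : ℝ) ^ (-σ) := by
    have := (abs_le.1 ((ty_abs (ht v) (y_pos σ v)).trans (y_half hσ v))).2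
    linarith
  rw [← Complex.ofReal_exp]
  unfold gg
  rw [Real.exp_neg, Real.exp_log h3, h2]
  push_cast
  rfl

end T

private theorem ZP_exp (K : Type) [Field K] [NumberField K] {σ : ℝ} (hσ : 1 < σ) :
    ZP K (σ : ℂ) = ((Real.exp (∑' v, gg (K := K) (fun _ => 1) σ v) : ℝ) : ℂ) := by
  have h1 := (gg_prod (K := K) (fun _ => 1) (fun _ => Or.inl rfl) hσ).tprod_eq
  rw [← h1]
  unfold ZP
  refine tprod_congr fun v => ?_
  rw [Int.cast_one, one_mul]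

private theorem zf_exp (t : HeightOneSpectrum (𝓞 K) → ℤ) (ht : ∀ v, t v = 1 ∨ t v = -1 ∨ t v = 0)
    {σ : ℝ} (hσ : 1 < σ) : ∏' v : HeightOneSpectrum (𝓞 K), zf (nrm v) (t v) (σ : ℂ) =
      ((Real.exp ((∑' v, gg (K := K) (fun _ => 1) σ v) + ∑' v, gg t σ v) : ℝ) : ℂ) := by
  have h1 := ((gg_prod (K := K) (fun _ => 1) (fun _ => Or.inl rfl) hσ).mul
    (gg_prod t ht hσ)).tprod_eq
  rw [Real.exp_add, Complex.ofReal_mul, ← h1]
  refine tprod_congr fun v => ?_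
  unfold zf
  rw [Int.cast_one, one_mul]

/-- the zeta function near `1` -/
private theorem ZP_log (F : Type) [Field F] [NumberField F] : ∃ C : ℝ, ∀ δ : ℝ, 0 < δ → δ ≤ 1 →
    |Real.log ‖ZP F ((1 + δ : ℝ) : ℂ)‖ - Real.log (1 / δ)| ≤ C := by
  obtain ⟨Z, h1, -, h3, h4, -⟩ := zeta_fe F
  obtain ⟨h, hh⟩ : ∃ h : ℝ → ℝ, h = fun δ => ‖Z ((1 + δ : ℝ) : ℂ)‖ := ⟨_, rfl⟩
  have hc : Continuous h := by
    rw [hh]
    exact (h1.continuous.comp (Complex.continuous_ofReal.comp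
      (continuous_const.add continuous_id))).norm
  have hne : ∀ δ : ℝ, 0 < δ → h δ = δ * ‖ZP F ((1 + δ : ℝ) : ℂ)‖ := by
    intro δ hδ
    rw [hh]
    show ‖Z ((1 + δ : ℝ) : ℂ)‖ = _
    rw [h4 _ (by rw [Complex.ofReal_re]; linarith), norm_mul]
    congr 1
    have : ((1 + δ : ℝ) : ℂ) - 1 = ((δ : ℝ) : ℂ) := by
      push_cast
      ring
    rw [this, Complex.norm_real, Real.norm_of_nonneg hδ.le]
  have hZ : ∀ δ : ℝ, 0 < δ → 0 < ‖ZP F ((1 + δ : ℝ) : ℂ)‖ := by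
    intro δ hδ
    rw [ZP_exp F (by linarith : (1 : ℝ) < 1 + δ), Complex.norm_real, Real.norm_eq_abs, abs_pos]
    exact (Real.exp_pos _).ne'
  have hpos : ∀ δ ∈ Set.Icc (0 : ℝ) 1, h δ ≠ 0 := by
    intro δ hδ
    rcases hδ.1.eq_or_lt with h0 | h0
    · rw [← h0, hh]
      show ‖Z ((1 + 0 : ℝ) : ℂ)‖ ≠ 0
      rw [add_zero, Complex.ofReal_one]
      exact norm_ne_zero_iff.2 h3
    · rw [hne δ h0]
      exact (mul_pos h0 (hZ δ h0)).ne'
  have hlc : ContinuousOn (fun δ => Real.log (h δ)) (Set.Icc 0 1) :=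
    hc.continuousOn.log hpos
  obtain ⟨C, hC⟩ := (isCompact_Icc.image_of_continuousOn hlc).isBounded.exists_norm_le
  refine ⟨C, fun δ hδ hδ1 => ?_⟩
  have h5 := hC _ ⟨δ, ⟨hδ.le, hδ1⟩, rfl⟩
  rw [Real.norm_eq_abs] at h5
  have h6 : Real.log (h δ) = Real.log ‖ZP F ((1 + δ : ℝ) : ℂ)‖ - Real.log (1 / δ) := by
    rw [hne δ hδ, Real.log_mul hδ.ne' (hZ δ hδ).ne', one_div, Real.log_inv]
    ring
  rw [← h6]
  exact h5

theorem psum_le : ∃ C : ℝ, ∀ δ : ℝ, 0 < δ → δ ≤ 1 →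
    ∑' v : Io S, (nrm v.1 : ℝ) ^ (-(1 + δ)) ≤ Real.log (1 / δ) + C := by
  obtain ⟨C, hC⟩ := ZP_log K
  refine ⟨C + BB K, fun δ hδ hδ1 => ?_⟩
  have hσ : 1 < 1 + δ := by linarith
  have h1 := hC δ hδ hδ1
  rw [ZP_exp K hσ, Complex.norm_real, Real.norm_of_nonneg (Real.exp_pos _).le, Real.log_exp] at h1
  have h2 := gg_tsum (K := K) (fun _ => 1) (fun _ => Or.inl rfl) hσ
  have h3 : ∑' v : Io S, (nrm v.1 : ℝ) ^ (-(1 + δ)) ≤
      ∑' v : HeightOneSpectrum (𝓞 K), (nrm v : ℝ) ^ (-(1 + δ)) :=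
    Summable.tsum_subtype_le (fun v : HeightOneSpectrum (𝓞 K) => (nrm v : ℝ) ^ (-(1 + δ)))
      {v | v ∉ S} (fun v => (y_pos _ v).le) (summable_nrm K hσ)
  have h4 : ∑' v : HeightOneSpectrum (𝓞 K), ((1 : ℤ) : ℝ) * (nrm v : ℝ) ^ (-(1 + δ)) =
      ∑' v : HeightOneSpectrum (𝓞 K), (nrm v : ℝ) ^ (-(1 + δ)) :=
    tsum_congr fun v => by rw [Int.cast_one, one_mul]
  rw [h4] at h2
  have h5 := (abs_le.1 h1).2
  have h6 := (abs_le.1 h2).1
  linarith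

/-- two families which agree outside a finite set -/
private theorem swap {t t' : HeightOneSpectrum (𝓞 K) → ℤ}
    (ht : ∀ v, t v = 1 ∨ t v = -1 ∨ t v = 0) (ht' : ∀ v, t' v = 1 ∨ t' v = -1 ∨ t' v = 0)
    (F : Finset (HeightOneSpectrum (𝓞 K))) (h : ∀ v, v ∉ F → t' v = t v) {σ : ℝ} (hσ : 1 < σ) :
    |(∑' v, (t' v : ℝ) * (nrm v : ℝ) ^ (-σ)) - ∑' v, (t v : ℝ) * (nrm v : ℝ) ^ (-σ)| ≤
      F.card := by
  rw [← (ty_sum t' ht' hσ).tsum_sub (ty_sum t ht hσ), tsum_eq_sum (s := F) fun v hv => by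
    rw [h v hv, sub_self]]
  refine (Finset.abs_sum_le_sum_abs _ _).trans ?_
  have h1 : ∀ v ∈ F, |(t' v : ℝ) * (nrm v : ℝ) ^ (-σ) - (t v : ℝ) * (nrm v : ℝ) ^ (-σ)| ≤ 1 := by
    intro v _
    have h2 := (ty_abs (ht v) (y_pos σ v)).trans (y_half hσ v)
    have h3 := (ty_abs (ht' v) (y_pos σ v)).trans (y_half hσ v)
    refine (abs_sub _ _).trans ?_
    linarith
  refine (Finset.sum_le_sum h1).trans ?_
  rw [Finset.sum_const, nsmul_eq_mul, mul_one]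

private theorem gen (z : Kˣ) (hz : ¬ IsSquare z) (F : Finset (HeightOneSpectrum (𝓞 K)))
    (t' : HeightOneSpectrum (𝓞 K) → ℤ) (ht' : ∀ v, t' v = 1 ∨ t' v = -1 ∨ t' v = 0)
    (h : ∀ v, v ∉ F → t' v = tt z v) : ∃ C : ℝ, ∀ δ : ℝ, 0 < δ → δ ≤ 1 →
      |∑' v, (t' v : ℝ) * (nrm v : ℝ) ^ (-(1 + δ))| ≤ C := by
  obtain ⟨C, hC⟩ := ZP_log K
  obtain ⟨C', hC'⟩ := ZP_log (qf hz).L
  refine ⟨C + C' + BB K + F.card, fun δ hδ hδ1 => ?_⟩
  have hσ : 1 < 1 + δ := by linarith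
  have h1 := hC δ hδ hδ1
  rw [ZP_exp K hσ, Complex.norm_real, Real.norm_of_nonneg (Real.exp_pos _).le, Real.log_exp] at h1
  have h2 := hC' δ hδ hδ1
  have e : ∀ v : HeightOneSpectrum (𝓞 K), tt z v = ty K (qf hz).L v := fun v => dif_neg hz
  have h3 := zf_exp (tt z) (tt_cases z) hσ
  rw [ZP_quad (qf hz).L (qf hz).deg (w := ((1 + δ : ℝ) : ℂ))
    (by rw [Complex.ofReal_re]; exact hσ)] at h2
  simp only [e] at h3
  rw [h3, Complex.norm_real, Real.norm_of_nonneg (Real.exp_pos _).le, Real.log_exp] at h2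
  have h4 := gg_tsum (tt z) (tt_cases z) hσ
  have h5 := swap (tt_cases z) ht' F h hσ
  rw [abs_le] at h1 h2 h4 h5 ⊢
  constructor <;> linarith [h1.1, h1.2, h2.1, h2.2, h4.1, h4.2, h5.1, h5.2]

private theorem sub_eq (f : HeightOneSpectrum (𝓞 K) → ℝ) (σ : ℝ)
    (t' : HeightOneSpectrum (𝓞 K) → ℤ) (h1 : ∀ v, v ∈ S → t' v = 0)
    (h2 : ∀ v, v ∉ S → (t' v : ℝ) = f v) :
    ∑' v : Io S, f v.1 * (nrm v.1 : ℝ) ^ (-σ) =
      ∑' v : HeightOneSpectrum (𝓞 K), (t' v : ℝ) * (nrm v : ℝ) ^ (-σ) := by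
  have h3 := tsum_subtype {v : HeightOneSpectrum (𝓞 K) | v ∉ S}
    (fun v => f v * (nrm v : ℝ) ^ (-σ))
  refine h3.trans (tsum_congr fun v => ?_)
  by_cases hv : v ∈ S
  · rw [Set.indicator_of_notMem (show v ∉ {v : HeightOneSpectrum (𝓞 K) | v ∉ S} from
      fun h => h hv), h1 v hv, Int.cast_zero, zero_mul]
  · rw [Set.indicator_of_mem (show v ∈ {v : HeightOneSpectrum (𝓞 K) | v ∉ S} from hv), h2 v hv]

theorem csum_bd (h2 : ∀ v : HeightOneSpectrum (𝓞 K), (2 : 𝓞 K) ∈ v.asIdeal → v ∈ S) (x : Kˣ)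
    (hx : ¬ IsSquare x) : ∃ C : ℝ, ∀ δ : ℝ, 0 < δ → δ ≤ 1 →
      |∑' v : Io S, (uK v.1 x : ℝ) * (nrm v.1 : ℝ) ^ (-(1 + δ))| ≤ C := by
  classical
  obtain ⟨C, hC⟩ := gen x hx S (fun v => if v ∈ S then 0 else uK v x)
    (fun v => by
      by_cases hv : v ∈ S
      · rw [if_pos hv]
        exact Or.inr (Or.inr rfl)
      · rw [if_neg hv]
        rcases uK_cases v x with h | h | h
        · exact Or.inr (Or.inr h)
        · exact Or.inl h
        · exact Or.inr (Or.inl h))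
    (fun v hv => by
      rw [if_neg hv]
      exact (tt_uK x v fun h => hv (h2 v h)).symm)
  refine ⟨C, fun δ hδ hδ1 => ?_⟩
  rw [sub_eq S (fun v => (uK v x : ℝ)) (1 + δ) (fun v => if v ∈ S then 0 else uK v x)
    (fun v hv => if_pos hv) (fun v hv => by rw [if_neg hv])]
  exact hC δ hδ hδ1

theorem cmul_bd (h2 : ∀ v : HeightOneSpectrum (𝓞 K), (2 : 𝓞 K) ∈ v.asIdeal → v ∈ S) (x y : Kˣ)
    (hxy : ¬ IsSquare (x * y)) : ∃ C : ℝ, ∀ δ : ℝ, 0 < δ → δ ≤ 1 →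
      |∑' v : Io S, ((uK v.1 x : ℝ) * (uK v.1 y : ℝ)) * (nrm v.1 : ℝ) ^ (-(1 + δ))| ≤ C := by
  classical
  have hcase : ∀ v, uK v x * uK v y = 1 ∨ uK v x * uK v y = -1 ∨ uK v x * uK v y = 0 := by
    intro v
    rcases uK_cases v x with h | h | h <;> rcases uK_cases v y with h' | h' | h' <;>
      rw [h, h'] <;> norm_num
  obtain ⟨C, hC⟩ := gen (x * y) hxy (S ∪ (Pool.Agent.QD.ordK_finite x).toFinset)
    (fun v => if v ∈ S then 0 else uK v x * uK v y)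
    (fun v => by
      by_cases hv : v ∈ S
      · rw [if_pos hv]
        exact Or.inr (Or.inr rfl)
      · rw [if_neg hv]
        exact hcase v)
    (fun v hv => by
      rw [Finset.mem_union, not_or, Set.Finite.mem_toFinset] at hv
      obtain ⟨hvS, hvx⟩ := hv
      have hvx' : ordK v x = 0 := by
        by_contra h
        exact hvx h
      have h2v : (2 : 𝓞 K) ∉ v.asIdeal := fun h => hvS (h2 v h)
      rw [if_neg hvS, tt_uK (x * y) v h2v]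
      have hex : Even (ordK v x) := by
        rw [hvx']
        exact Even.zero
      by_cases hy : Even (ordK v y)
      · exact (N2.uK_mul h2v x y hex hy).symm
      · have hyo : Odd (ordK v y) := Int.not_even_iff_odd.1 hy
        have h5 : uK v y = 0 := uK_eq_zero_iff.2 hyo
        have h6 : uK v (x * y) = 0 := by
          refine uK_eq_zero_iff.2 ?_
          rw [ordK_mul, hvx', zero_add]
          exact hyo
        rw [h5, h6, mul_zero])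
  refine ⟨C, fun δ hδ hδ1 => ?_⟩
  rw [sub_eq S (fun v => (uK v x : ℝ) * (uK v y : ℝ)) (1 + δ)
    (fun v => if v ∈ S then 0 else uK v x * uK v y)
    (fun v hv => if_pos hv) (fun v hv => by rw [if_neg hv, Int.cast_mul])]
  exact hC δ hδ hδ1

end Pool.Agent.LD
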