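import Pool.Agent.LD.E.Main
import Pool.Agent.Helper12.SD.Main

/-!
# LD/E-Comb: the main theorem with fields of large degree
-/

namespace Pool.Agent.LD

open NumberField IsDedekindDomain Pool.Agent.HWR Pool.Agent.QD Pool.Agent.H73.AL
open Pool.Agent.Helper12.SD

/-- the algebra structure and the degree at the top of a tower -/
theorem tow_alg {q : ℕ} (hq : 2 ≤ q) {K F : NF} {n : ℕ} (h : Tow q K n F) :
    ∃ (_ : Algebra K.F F.F), Module.finrank K.F F.F ∣ (2 * q) ^ n ∧
      2 ^ n ≤ Module.finrank K.F F.F := by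
  induction h with
  | zero => exact ⟨Algebra.id _, by rw [Module.finrank_self]; exact one_dvd _,
      by rw [Module.finrank_self, pow_zero]⟩
  | @succ n F F' alg _ _ hd ih =>
    obtain ⟨alg', h1, h2⟩ := ih
    let alg'' : Algebra K.F F'.F := ((algebraMap F.F F'.F).comp (algebraMap K.F F.F)).toAlgebra
    have : IsScalarTower K.F F.F F'.F := IsScalarTower.of_algebraMap_eq' rfl
    have h3 : Module.finrank K.F F.F * Module.finrank F.F F'.F = Module.finrank K.F F'.F :=
      Module.finrank_mul_finrank K.F F.F F'.F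
    refine ⟨alg'', ?_, ?_⟩
    · rw [← h3, pow_succ]
      refine mul_dvd_mul h1 ?_
      rcases hd with hd | hd <;> rw [hd]
      · exact dvd_mul_right 2 q
      · exact dvd_mul_left q 2
    · rw [← h3, pow_succ]
      refine Nat.mul_le_mul h2 ?_
      rcases hd with hd | hd <;> rw [hd]
      exact hq

theorem ld_comb (T : Finset ℕ) (hTp : ∀ p ∈ T, p.Prime)
    (hT : ∀ p : ℕ, p.Prime → p < 101 → p ∈ T) (D : LocData T) (a : ℕ → ℝ)
    (ha : ∀ q : ℕ, |a q| ≤ 2 * Real.sqrt q) (hfr : FrobRel T a)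
    (K : Type) [Field K] [NumberField K] (V : Finset (HeightOneSpectrum (𝓞 K)))
    (hV : ∀ v ∈ V, Away K T v) (m N : ℕ)
    (h : ∀ (F : Type) [Field F] [NumberField F] [Algebra K F], 2 ^ N ≤ Module.finrank K F →
      Module.finrank K F ∣ 18 ^ (m * V.card + N + 1) →
      (∀ v ∈ V, ∃ w : HeightOneSpectrum (𝓞 F), Over v w ∧ 2 ^ m ∣ locDeg K w) → D.HW a F) :
    D.HW a K := by
  refine ld_final T hTp hT D a ha hfr K V hV m ?_
  intro F _ _ _ hdeg hloc
  haveI : Fact (Nat.Prime 3) := ⟨Nat.prime_three⟩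
  refine sd_main T hTp hT D a ha hfr 3 (by norm_num) ⟨F⟩ N ?_
  intro n F' hn hF'
  obtain ⟨alg, h1, h2⟩ := tow_alg (by norm_num) hF'
  let algK : Algebra K F'.F := ((algebraMap F F'.F).comp (algebraMap K F)).toAlgebra
  have : IsScalarTower K F F'.F := IsScalarTower.of_algebraMap_eq' rfl
  have h3 : Module.finrank K F * Module.finrank F F'.F = Module.finrank K F'.F :=
    Module.finrank_mul_finrank K F F'.F
  have hNn : N ≤ n := by omega
  have hnN : n ≤ N + 1 := by omega
  have hpos : 0 < Module.finrank K F := Module.finrank_pos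
  refine h F'.F ?_ ?_ ?_
  · rw [← h3]
    calc 2 ^ N ≤ 2 ^ n := Nat.pow_le_pow_right (by norm_num) hNn
      _ ≤ Module.finrank F F'.F := h2
      _ = 1 * Module.finrank F F'.F := (one_mul _).symm
      _ ≤ _ := Nat.mul_le_mul_right _ hpos
  · rw [← h3, add_assoc, pow_add]
    refine mul_dvd_mul hdeg (h1.trans ?_)
    exact (pow_dvd_pow_of_dvd (by norm_num) n).trans (pow_dvd_pow 18 hnN)
  · intro v hv
    obtain ⟨w, hw, hd⟩ := hloc v hv
    obtain ⟨w', hw'⟩ := exists_over' F'.F w
    refine ⟨w', over_trans hw hw', ?_⟩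
    rw [locDeg_tower K F F'.F w w' hw']
    exact hd.mul_right _

end Pool.Agent.LD
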