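import Pool.Agent.LD.A.Euler
import Pool.Agent.LD.A.Glob

/-!
# LD/E-Log: logarithms of the Euler products near `Re s = 3/2`

PLAN.  `Efac v u s = (1 - W)⁻¹`, `W = lam u N^(-s) - u² N^(1-2s)` (see `eu_Efac_eq`, `euW` in LD/A/Euler, private: copy what is needed).
For `Re s > 3/2`, `|u| ≤ 1`, `|lam| ≤ 2 √N`, `N ≥ 101`: `‖W‖ ≤ 2 N^(1/2 - Re s) + N^(1 - 2 Re s) ≤ 3 N^(-1) ≤ 1/2` and `∑ ‖W_v‖ < ∞`
(`∑ N^(1/2 - Re s)`, `hS.sumN`), so the product converges, is not `0` and `log ‖∏ (1 - W_v)⁻¹‖ = ∑ - log ‖1 - W_v‖` (take the norm of the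
product: `HasProd.norm`, `Real.log` of `HasProd` of positive numbers, or `Complex.log`/`exp`: `∏ (1 - W)⁻¹ = exp (∑ - log (1 - W))`
(`Complex.cexp_tsum_eq_tprod`), and `log ‖exp z‖ = Re z`).
`|- log ‖1 - W‖ - Re W| ≤ ‖W‖²` for `‖W‖ ≤ 1/2` (`Complex.norm_log_one_add_sub_self_le`-like), `‖W_v‖² ≤ 9 N^(-2)`, and
`|Re W - lam u Re N^(-s)| ≤ ‖N^(1-2s)‖ ≤ N^(-2)` (`u` is real: `0, 1, -1`).  So `C = 10 ∑ N_v^(-2)` works in both statements.
-/

namespace Pool.Agent.LD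

open Pool.Agent.QD Pool.Agent.QD.SysD

variable {S : SysD}

private theorem el_N (hS : IsSys0 S) (v : S.ι) : (101 : ℝ) ≤ S.N v := by
  exact_mod_cast hS.hN v

private theorem el_norm_cpow (hS : IsSys0 S) (v : S.ι) (w : ℂ) :
    ‖(S.N v : ℂ) ^ w‖ = (S.N v : ℝ) ^ w.re :=
  Complex.norm_natCast_cpow_of_pos (by have := hS.hN v; omega) w

private theorem el_rpow_le (hS : IsSys0 S) (v : S.ι) {x y : ℝ} (h : x ≤ y) :
    (S.N v : ℝ) ^ x ≤ (S.N v : ℝ) ^ y :=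
  Real.rpow_le_rpow_of_exponent_le (by linarith [el_N hS v]) h

private theorem el_rpow_small (hS : IsSys0 S) (v : S.ι) {x : ℝ} (h : x ≤ -1) :
    (S.N v : ℝ) ^ x ≤ 1 / 101 := by
  have hN := el_N hS v
  refine (el_rpow_le hS v h).trans ?_
  rw [Real.rpow_neg_one, ← one_div]
  exact one_div_le_one_div_of_le (by norm_num) hN

private theorem el_lam (hS : IsSys0 S) (v : S.ι) {u : ℂ} (hu : ‖u‖ ≤ 1) (s : ℂ) :
    ‖(S.lam v : ℂ) * u * (S.N v : ℂ) ^ (-s)‖ ≤ 2 * (S.N v : ℝ) ^ (1 / 2 - s.re) := by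
  have hN := el_N hS v
  have hN0 : (0 : ℝ) < S.N v := by linarith
  have hl := hS.hlam v
  rw [norm_mul, norm_mul, el_norm_cpow hS, Complex.norm_real, Real.norm_eq_abs]
  have e2 : (-s).re = -s.re := by simp
  rw [e2]
  have e3 : Real.sqrt (S.N v) * (S.N v : ℝ) ^ (-s.re) = (S.N v : ℝ) ^ (1 / 2 - s.re) := by
    rw [Real.sqrt_eq_rpow, ← Real.rpow_add hN0]
    congr 1
  have hu0 := norm_nonneg u
  have hp0 : 0 ≤ (S.N v : ℝ) ^ (-s.re) := by positivity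
  calc |S.lam v| * ‖u‖ * (S.N v : ℝ) ^ (-s.re)
      ≤ (2 * Real.sqrt (S.N v)) * 1 * (S.N v : ℝ) ^ (-s.re) := by gcongr
    _ = 2 * (Real.sqrt (S.N v) * (S.N v : ℝ) ^ (-s.re)) := by ring
    _ = 2 * (S.N v : ℝ) ^ (1 / 2 - s.re) := by rw [e3]

private theorem el_sq (hS : IsSys0 S) (v : S.ι) {u : ℂ} (hu : ‖u‖ ≤ 1) (s : ℂ) :
    ‖u ^ 2 * (S.N v : ℂ) ^ (1 - 2 * s)‖ ≤ (S.N v : ℝ) ^ (1 - 2 * s.re) := by
  rw [norm_mul, norm_pow, el_norm_cpow hS]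
  have e1 : (1 - 2 * s).re = 1 - 2 * s.re := by simp
  rw [e1]
  have h3 : ‖u‖ ^ 2 ≤ 1 := pow_le_one₀ (norm_nonneg u) hu
  have hp0 : 0 ≤ (S.N v : ℝ) ^ (1 - 2 * s.re) := by positivity
  calc ‖u‖ ^ 2 * (S.N v : ℝ) ^ (1 - 2 * s.re) ≤ 1 * (S.N v : ℝ) ^ (1 - 2 * s.re) := by gcongr
    _ = _ := one_mul _

private noncomputable def elW (S : SysD) (v : S.ι) (u s : ℂ) : ℂ :=
  (S.lam v : ℂ) * u * (S.N v : ℂ) ^ (-s) - u ^ 2 * (S.N v : ℂ) ^ (1 - 2 * s)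

private theorem el_Efac_eq (v : S.ι) (u s : ℂ) : S.Efac v u s = (1 - elW S v u s)⁻¹ := by
  unfold Efac elW
  congr 1
  ring

private theorem el_W (hS : IsSys0 S) (v : S.ι) {u : ℂ} (hu : ‖u‖ ≤ 1) {s : ℂ} (hs : 3 / 2 < s.re) :
    ‖elW S v u s‖ ≤ 3 * (S.N v : ℝ) ^ (1 / 2 - s.re) := by
  have h1 := el_lam hS v hu s
  have h2 := el_sq hS v hu s
  have h3 : (S.N v : ℝ) ^ (1 - 2 * s.re) ≤ (S.N v : ℝ) ^ (1 / 2 - s.re) :=
    el_rpow_le hS v (by linarith)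
  have h4 := norm_sub_le ((S.lam v : ℂ) * u * (S.N v : ℂ) ^ (-s)) (u ^ 2 * (S.N v : ℂ) ^ (1 - 2 * s))
  unfold elW
  linarith

private theorem el_inv_sub_one {w : ℂ} {y C : ℝ} (hw : ‖w‖ ≤ C * y)
    (h1 : ‖w‖ ≤ 21 / 100) : ‖(1 - w)⁻¹ - 1‖ ≤ 2 * C * y := by
  have d1 : 79 / 100 ≤ ‖1 - w‖ := by
    have h2 : ‖(1 : ℂ)‖ - ‖w‖ ≤ ‖1 - w‖ := norm_sub_norm_le _ _
    rw [norm_one] at h2
    linarith
  have hne : 1 - w ≠ 0 := by
    intro h; rw [h, norm_zero] at d1; linarith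
  have e : (1 - w)⁻¹ - 1 = w / (1 - w) := by field_simp; ring
  rw [e, norm_div, div_le_iff₀ (by linarith)]
  have hC : 0 ≤ C * y := (norm_nonneg _).trans hw
  nlinarith

private theorem el_log {w : ℂ} (h1 : ‖w‖ ≤ 1 / 2) : |Real.log ‖(1 - w)⁻¹‖ - w.re| ≤ ‖w‖ ^ 2 := by
  have h2 := Complex.norm_log_one_add_sub_self_le (z := -w) (by rw [norm_neg]; linarith)
  rw [norm_neg] at h2
  have h3 := (Complex.abs_re_le_norm _).trans h2
  have e : (Complex.log (1 + -w) - -w).re = -(Real.log ‖(1 - w)⁻¹‖ - w.re) := by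
    rw [norm_inv, Real.log_inv, Complex.sub_re, Complex.log_re, Complex.neg_re, ← sub_eq_add_neg]
    ring
  rw [e, abs_neg] at h3
  refine h3.trans ?_
  have h4 : (1 - ‖w‖)⁻¹ ≤ 2 := by
    rw [inv_le_comm₀ (by linarith) two_pos]
    linarith
  have h5 := sq_nonneg ‖w‖
  nlinarith

private theorem el_core (hS : IsSys0 S) (u : S.ι → ℂ) (hu : ∀ v, ‖u v‖ ≤ 1)
    (him : ∀ v, (u v).im = 0) (s : ℂ) (hs : 3 / 2 < s.re) :
    ∏' v, S.Efac v (u v) s ≠ 0 ∧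
      |Real.log ‖∏' v, S.Efac v (u v) s‖ -
        ∑' v, S.lam v * ((u v).re * ((S.N v : ℂ) ^ (-s)).re)| ≤
          ∑' v : S.ι, 10 * (S.N v : ℝ) ^ (-(2 : ℝ)) := by
  have hy : ∀ v : S.ι, (S.N v : ℝ) ^ (1 / 2 - s.re) ≤ 1 / 101 := fun v =>
    el_rpow_small hS v (by linarith)
  have hsum : Summable fun v : S.ι => (S.N v : ℝ) ^ (1 / 2 - s.re) := by
    have h := hS.sumN (s.re - 1 / 2) (by linarith)
    simpa only [neg_sub] using h
  have hE1 : ∀ v, ‖S.Efac v (u v) s - 1‖ ≤ 6 * (S.N v : ℝ) ^ (1 / 2 - s.re) := by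
    intro v
    have h1 := el_W hS v (hu v) hs
    have h2 := hy v
    rw [el_Efac_eq]
    have h3 := el_inv_sub_one h1 (by linarith)
    linarith
  have hW1 : ∀ v, ‖elW S v (u v) s‖ ≤ 1 / 2 := by
    intro v
    have h1 := el_W hS v (hu v) hs
    have h2 := hy v
    linarith
  have hne : ∀ v, S.Efac v (u v) s ≠ 0 := by
    intro v
    rw [el_Efac_eq]
    apply inv_ne_zero
    intro h
    have h1 := hW1 v
    have h2 : elW S v (u v) s = 1 := by linear_combination -h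
    rw [h2, norm_one] at h1
    norm_num at h1
  have hlog : Summable fun v => Complex.log (S.Efac v (u v) s) := by
    refine Summable.of_norm_bounded (hsum.mul_left 9) fun v => ?_
    have h1 := Complex.norm_log_one_add_half_le_self (z := S.Efac v (u v) s - 1)
      (by have := hE1 v; have := hy v; linarith)
    rw [add_sub_cancel] at h1
    have h2 := hE1 v
    linarith
  have hexp := Complex.cexp_tsum_eq_tprod hne hlog
  refine ⟨by rw [← hexp]; exact Complex.exp_ne_zero _, ?_⟩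
  have hre : Real.log ‖∏' v, S.Efac v (u v) s‖ = ∑' v, Real.log ‖S.Efac v (u v) s‖ := by
    rw [← hexp, Complex.norm_exp, Real.log_exp, Complex.re_tsum hlog]
    exact tsum_congr fun v => Complex.log_re _
  have hs1 : Summable fun v => Real.log ‖S.Efac v (u v) s‖ := by
    have h1 := (Complex.hasSum_re hlog.hasSum).summable
    refine h1.congr fun v => ?_
    exact Complex.log_re _
  have hs2 : Summable fun v => S.lam v * ((u v).re * ((S.N v : ℂ) ^ (-s)).re) := by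
    refine Summable.of_norm_bounded (hsum.mul_left 2) fun v => ?_
    have h1 := (Complex.abs_re_le_norm _).trans (el_lam hS v (hu v) s)
    have e : ((S.lam v : ℂ) * u v * (S.N v : ℂ) ^ (-s)).re =
        S.lam v * ((u v).re * ((S.N v : ℂ) ^ (-s)).re) := by
      simp only [Complex.mul_re, Complex.ofReal_re, Complex.ofReal_im, him v, Complex.mul_im]
      ring
    rw [e] at h1
    rw [Real.norm_eq_abs]
    exact h1
  rw [hre, ← hs1.tsum_sub hs2]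
  have hb : Summable fun v : S.ι => 10 * (S.N v : ℝ) ^ (-(2 : ℝ)) :=
    (hS.sumN 2 one_lt_two).mul_left 10
  rw [← Real.norm_eq_abs]
  refine tsum_of_norm_bounded hb.hasSum fun v => ?_
  rw [Real.norm_eq_abs]
  have h1 := el_log (hW1 v)
  rw [← el_Efac_eq] at h1
  have h2 := el_W hS v (hu v) hs
  have h3 : (S.N v : ℝ) ^ (1 / 2 - s.re) ≤ (S.N v : ℝ) ^ (-1 : ℝ) := el_rpow_le hS v (by linarith)
  have hN0 : (0 : ℝ) < S.N v := by linarith [el_N hS v]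
  have h4 : ((S.N v : ℝ) ^ (-1 : ℝ)) ^ 2 = (S.N v : ℝ) ^ (-(2 : ℝ)) := by
    rw [← Real.rpow_natCast, ← Real.rpow_mul hN0.le]
    norm_num
  have h5 : ‖elW S v (u v) s‖ ^ 2 ≤ 9 * (S.N v : ℝ) ^ (-(2 : ℝ)) := by
    rw [← h4]
    have h6 := norm_nonneg (elW S v (u v) s)
    nlinarith
  have h7 := (Complex.abs_re_le_norm _).trans (el_sq hS v (hu v) s)
  have h8 : (S.N v : ℝ) ^ (1 - 2 * s.re) ≤ (S.N v : ℝ) ^ (-(2 : ℝ)) :=
    el_rpow_le hS v (by linarith)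
  have e : (elW S v (u v) s).re = S.lam v * ((u v).re * ((S.N v : ℂ) ^ (-s)).re) -
      (u v ^ 2 * (S.N v : ℂ) ^ (1 - 2 * s)).re := by
    unfold elW
    rw [Complex.sub_re]
    congr 1
    simp only [Complex.mul_re, Complex.ofReal_re, Complex.ofReal_im, him v, Complex.mul_im]
    ring
  rw [e] at h1
  rw [abs_le] at h1 h7 ⊢
  constructor <;> linarith [h1.1, h1.2, h7.1, h7.2]

theorem log_Ls (hS : IsSys0 S) : ∃ C : ℝ, 0 ≤ C ∧ ∀ s : ℂ, 3 / 2 < s.re → S.Ls s ≠ 0 ∧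
    |Real.log ‖S.Ls s‖ - ∑' v, S.lam v * ((S.N v : ℂ) ^ (-s)).re| ≤ C := by
  refine ⟨∑' v : S.ι, 10 * (S.N v : ℝ) ^ (-(2 : ℝ)), tsum_nonneg fun v => by positivity,
    fun s hs => ?_⟩
  have h := el_core hS (fun _ => 1) (fun _ => by simp) (fun _ => by simp) s hs
  unfold Ls
  simpa only [Complex.one_re, one_mul] using h

theorem log_Lu (hS : IsSys0 S) (b : S.J) (c : S.G) (h : S.R b c) : ∃ C : ℝ, 0 ≤ C ∧
    ∀ s : ℂ, 3 / 2 < s.re → S.Lu b c s ≠ 0 ∧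
      |Real.log ‖S.Lu b c s‖ - ∑' v, S.lam v * ((S.u v b c).re * ((S.N v : ℂ) ^ (-s)).re)| ≤ C := by
  refine ⟨∑' v : S.ι, 10 * (S.N v : ℝ) ^ (-(2 : ℝ)), tsum_nonneg fun v => by positivity,
    fun s hs => ?_⟩
  have him : ∀ v, (S.u v b c).im = 0 := by
    intro v
    rcases Nat.even_or_odd (b v) with h1 | h1
    · rcases hS.u_even v b c h h1 with h2 | h2 <;> rw [h2] <;> simp
    · rw [hS.u_odd v b c h h1]
      simp
  exact el_core hS (fun v => S.u v b c) (fun v => u_norm hS v b c h) him s hs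

end Pool.Agent.LD
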