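import Pool.Agent.LD.E.Fin
import Pool.Agent.LD.L.Ind

/-!
# LD/E-Main: the main theorem without the condition on double zeros
-/

namespace Pool.Agent.LD

open NumberField IsDedekindDomain Pool.Agent.HWR Pool.Agent.QD

theorem ld_final (T : Finset ℕ) (hTp : ∀ p ∈ T, p.Prime)
    (hT : ∀ p : ℕ, p.Prime → p < 101 → p ∈ T) (D : LocData T) (a : ℕ → ℝ)
    (ha : ∀ q : ℕ, |a q| ≤ 2 * Real.sqrt q) (hfr : FrobRel T a)
    (K : Type) [Field K] [NumberField K] (V : Finset (HeightOneSpectrum (𝓞 K)))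
    (hV : ∀ v ∈ V, Away K T v) (m : ℕ)
    (h : ∀ (F : Type) [Field F] [NumberField F] [Algebra K F],
      Module.finrank K F ∣ 18 ^ (m * V.card) →
      (∀ v ∈ V, ∃ w : HeightOneSpectrum (𝓞 F), Over v w ∧ 2 ^ m ∣ locDeg K w) → D.HW a F) :
    D.HW a K := by
  refine ld_main T hTp hT D a ha hfr ?_ K V hV m h
  intro F _ _ w hw _ hH f g hf hg hgne hfg z hz ho
  exact edge F T hTp hT D a ha (sqRel_of_frob F T a hfr) w hw hH f g hf hg hgne hfg z hz ho

end Pool.Agent.LD
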